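import Pool.Agent.Results.MP_ed087a_al.NotSmooth

/-!
# Many Lie group structures on one topological group
-/

set_option autoImplicit false

open Filter Topology
open Pool.Agent.Results.MP_ed087a_al.NotSmooth

namespace Pool.Agent.Y694.SM

/-- A map between groups with Lie group structures is `C^1` if it is continuous and `C^1` in all
charts. -/
def C1Map {E F : Type} [AddCommGroup E] [Module ℝ E] [TopologicalSpace E]
    [AddCommGroup F] [Module ℝ F] [TopologicalSpace F]
    {H G : Type} [Group H] [TopologicalSpace H] [Group G] [TopologicalSpace G]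
    (LH : LieStructure E H) (LG : LieStructure F G) (f : H → G) : Prop :=
  Continuous f ∧ ∀ e ∈ LH.charts, ∀ e' ∈ LG.charts,
    IsCk F 1 E (fun x : E => e' (f (e.symm x))) {x | x ∈ e.target ∧ f (e.symm x) ∈ e'.source}

theorem coc_zero : coc 0 = 0 := by
  apply Subtype.ext
  funext n
  change (coc 0).1 n = 0
  rw [coc_apply, zero_mul, Real.exp_zero, sub_self]

theorem coc_add (s t : ℝ) : coc (s + t) = coc s + act s (coc t) := by
  apply Subtype.ext
  funext n
  change (coc (s + t)).1 n = (coc s).1 n + (act s (coc t)).1 n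
  rw [act_apply, coc_apply, coc_apply, coc_apply, add_mul, Real.exp_add]
  ring

theorem act_smul (s c : ℝ) (v : V) : act s (c • v) = c • act s v := by
  apply Subtype.ext
  funext n
  change Real.exp (s * n) * (c * v.1 n) = c * (Real.exp (s * n) * v.1 n)
  ring

theorem coc_continuous : Continuous coc := by
  apply Continuous.subtype_mk
  apply continuous_pi
  intro n
  change Continuous (fun t : ℝ => (n : ℝ) ^ 0 * (1 - Real.exp (t * n)))
  fun_prop

/-- the twisting function -/
noncomputable def twf (c : ℝ) (g : Grp) : Grp := ⟨g.v + c • coc g.t, g.t⟩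

theorem twf_twf (a b : ℝ) (g : Grp) : twf a (twf b g) = twf (a + b) g := by
  apply Grp.ext'
  · change (g.v + b • coc g.t) + a • coc g.t = g.v + (a + b) • coc g.t
    rw [add_smul]; abel
  · rfl

theorem twf_zero (g : Grp) : twf 0 g = g := by
  apply Grp.ext'
  · change g.v + (0 : ℝ) • coc g.t = g.v
    rw [zero_smul, add_zero]
  · rfl

theorem twf_mul (c : ℝ) (g h : Grp) : twf c (g * h) = twf c g * twf c h := by
  apply Grp.ext'
  · change (g.v + act g.t h.v) + c • coc (g.t + h.t) =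
      (g.v + c • coc g.t) + act g.t (h.v + c • coc h.t)
    rw [coc_add, act_add, act_smul, smul_add]
    abel
  · rfl

theorem twf_continuous (c : ℝ) : Continuous (twf c) := by
  rw [← chartHomeo.comp_continuous_iff]
  change Continuous (fun g : Grp => (g.v + c • coc g.t, g.t))
  exact (cont_v.add ((coc_continuous.comp cont_t).const_smul c)).prodMk cont_t

/-- the twisting automorphism of the topological group -/
noncomputable def tw (c : ℝ) : Grp ≃ₜ* Grp where
  toFun := twf c
  invFun := twf (-c)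
  left_inv g := by rw [twf_twf, neg_add_cancel, twf_zero]
  right_inv g := by rw [twf_twf, add_neg_cancel, twf_zero]
  map_mul' := twf_mul c
  continuous_toFun := twf_continuous c
  continuous_invFun := twf_continuous (-c)

theorem tw_apply (c : ℝ) (g : Grp) : tw c g = twf c g := rfl
theorem tw_symm_apply (c : ℝ) (g : Grp) : (tw c).symm g = twf (-c) g := rfl

/-- the twisted global chart -/
noncomputable def ch (a : ℝ) : Grp ≃ₜ V × ℝ := (tw a).toHomeomorph.trans chartHomeo

theorem ch_apply (a : ℝ) (g : Grp) : ch a g = (g.v + a • coc g.t, g.t) := rfl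

theorem ch_symm_apply (a : ℝ) (x : V × ℝ) : (ch a).symm x = twf (-a) ⟨x.1, x.2⟩ := rfl

/-- the twisted Lie group structure -/
noncomputable def lieTw (a : ℝ) : LieStructure (V × ℝ) Grp where
  charts := {(ch a).toOpenPartialHomeomorph}
  cover g := ⟨_, rfl, trivial⟩
  transition := by
    rintro e₁ rfl e₂ rfl k
    have h4 : (fun x : V × ℝ => (ch a).toOpenPartialHomeomorph
        ((ch a).toOpenPartialHomeomorph.symm x)) = fun x => x := by
      funext x
      exact (ch a).apply_symm_apply x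
    rw [h4]
    exact (Nice.lin (ContinuousLinearMap.id ℝ (V × ℝ))).isCk k _
  mul_smooth := by
    rintro e₁ rfl e₂ rfl e₃ rfl k
    have h1 := Nice.lin (E := (V × ℝ) × (V × ℝ))
      (((ContinuousLinearMap.fst ℝ V ℝ).comp (ContinuousLinearMap.fst ℝ (V × ℝ) (V × ℝ))).prod
        ((ContinuousLinearMap.snd ℝ V ℝ).comp (ContinuousLinearMap.fst ℝ (V × ℝ) (V × ℝ)) +
          (ContinuousLinearMap.snd ℝ V ℝ).comp (ContinuousLinearMap.snd ℝ (V × ℝ) (V × ℝ))))
    have h2 := Nice.act (E := (V × ℝ) × (V × ℝ))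
      ((ContinuousLinearMap.snd ℝ V ℝ).comp (ContinuousLinearMap.fst ℝ (V × ℝ) (V × ℝ)))
      ((ContinuousLinearMap.fst ℝ V ℝ).comp (ContinuousLinearMap.snd ℝ (V × ℝ) (V × ℝ)))
    have h3 := (Nice.add _ _ h1 h2).isCk k
    have h4 : (fun p : (V × ℝ) × (V × ℝ) =>
        (ch a).toOpenPartialHomeomorph ((ch a).toOpenPartialHomeomorph.symm p.1 *
          (ch a).toOpenPartialHomeomorph.symm p.2)) =
        fun p => ((p.1.1, p.1.2 + p.2.2) : V × ℝ) + (act p.1.2 p.2.1, 0) := by
      funext p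
      change chartHomeo (twf a (twf (-a) ⟨p.1.1, p.1.2⟩ * twf (-a) ⟨p.2.1, p.2.2⟩)) = _
      rw [← twf_mul, twf_twf, add_neg_cancel, twf_zero]
      change ((p.1.1 + act p.1.2 p.2.1, p.1.2 + p.2.2) : V × ℝ) = _
      rw [Prod.mk_add_mk, add_zero]
    rw [h4]
    exact h3 _
  inv_smooth := by
    rintro e₁ rfl e₂ rfl k
    have h1 := Nice.lin (E := V × ℝ)
      ((0 : V × ℝ →L[ℝ] V).prod (-(ContinuousLinearMap.snd ℝ V ℝ)))
    have h2 := Nice.act (E := V × ℝ) (-(ContinuousLinearMap.snd ℝ V ℝ))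
      (-(ContinuousLinearMap.fst ℝ V ℝ))
    have h3 := (Nice.add _ _ h1 h2).isCk k
    have h4 : (fun x : V × ℝ => (ch a).toOpenPartialHomeomorph
        ((ch a).toOpenPartialHomeomorph.symm x)⁻¹) =
        fun x => ((0, -x.2) : V × ℝ) + (act (-x.2) (-x.1), 0) := by
      funext x
      change chartHomeo ((tw a) (((tw a).symm (⟨x.1, x.2⟩ : Grp))⁻¹)) = _
      rw [map_inv, ContinuousMulEquiv.apply_symm_apply]
      change ((-act (-x.2) x.1, -x.2) : V × ℝ) = _
      rw [Prod.mk_add_mk, add_zero, zero_add, act_neg]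
    rw [h4]
    exact h3 _

/-- the twisting automorphism read in the twisted charts -/
theorem tw_chart (a b d : ℝ) :
    (fun x : V × ℝ => (ch b).toOpenPartialHomeomorph
      (tw d ((ch a).toOpenPartialHomeomorph.symm x))) =
      fun x => (x.1 + (b + d - a) • coc x.2, x.2) := by
  funext x
  change chartHomeo (twf b (twf d (twf (-a) ⟨x.1, x.2⟩))) = _
  rw [twf_twf, twf_twf]
  change (x.1 + (b + d + -a) • coc x.2, x.2) = _
  rw [← sub_eq_add_neg]

theorem smooth_tw {a b d : ℝ} (h : b + d - a = 0) : SmoothMap (lieTw a) (lieTw b) (tw d) := by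
  refine ⟨(tw d).continuous_toFun, ?_⟩
  rintro e rfl e' rfl k
  rw [tw_chart, h]
  have h4 : (fun x : V × ℝ => (x.1 + (0 : ℝ) • coc x.2, x.2)) = fun x => x := by
    funext x
    rw [zero_smul, add_zero]
  rw [h4]
  exact (Nice.lin (ContinuousLinearMap.id ℝ (V × ℝ))).isCk k _

theorem not_dir {c : ℝ} (hc : c ≠ 0) (y : V × ℝ) :
    ¬ Tendsto (fun t : ℝ => t⁻¹ • (((c • coc t, t) : V × ℝ) - (c • coc 0, 0))) (𝓝[≠] 0) (𝓝 y) := by
  intro h
  apply no_derivative (c⁻¹ • y.1, y.2)
  unfold HasDirDeriv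
  have hcont : Continuous fun z : V × ℝ => ((c⁻¹ • z.1, z.2) : V × ℝ) :=
    (continuous_fst.const_smul c⁻¹).prodMk continuous_snd
  have h2 := (hcont.tendsto y).comp h
  refine h2.congr fun t => ?_
  simp only [Function.comp_apply]
  have e1 : (0 : ℝ) + t • (1 : ℝ) = t := by simp
  rw [e1]
  refine Prod.ext ?_ ?_
  · have e2 : c • coc t - c • coc 0 = c • (coc t - coc 0) := (smul_sub c (coc t) (coc 0)).symm
    have e3 : c⁻¹ • (t⁻¹ • (c • (coc t - coc 0))) = t⁻¹ • (coc t - coc 0) := by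
      rw [smul_comm t⁻¹ c, smul_smul, inv_mul_cancel₀ hc, one_smul]
    change c⁻¹ • (t⁻¹ • (c • coc t - c • coc 0)) = t⁻¹ • (coc t - coc 0)
    exact (congrArg (fun z => c⁻¹ • (t⁻¹ • z)) e2).trans e3
  · rfl

theorem not_c1_tw {a b d : ℝ} (h : b + d - a ≠ 0) : ¬ C1Map (lieTw a) (lieTw b) (tw d) := by
  rintro ⟨-, h1⟩
  have h2 := h1 _ rfl _ rfl
  rw [tw_chart] at h2
  obtain ⟨-, df, h3, -⟩ := h2
  have h4 := h3 (0, 0) ⟨trivial, trivial⟩ (0, 1)
  unfold HasDirDeriv at h4
  apply not_dir h (df ((0, 0), (0, 1)))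
  refine h4.congr fun t => ?_
  have e1 : ((0, 0) : V × ℝ) + t • ((0, 1) : V × ℝ) = (0, t) := by
    refine Prod.ext ?_ ?_
    · change (0 : V) + t • (0 : V) = 0
      rw [smul_zero, add_zero]
    · change (0 : ℝ) + t * 1 = t
      ring
  rw [e1]
  simp only [zero_add]

/-- the one-parameter group of the second factor -/
noncomputable def gam : Multiplicative ℝ →* Grp where
  toFun t := ⟨0, t.toAdd⟩
  map_one' := rfl
  map_mul' s t := by
    apply Grp.ext'
    · change (0 : V) = 0 + act s.toAdd 0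
      have : act s.toAdd (0 : V) = 0 := by apply Subtype.ext; exact map_zero _
      rw [this, add_zero]
    · rfl

theorem gam_continuous : Continuous gam := by
  rw [← chartHomeo.comp_continuous_iff]
  change Continuous (fun t : ℝ => ((0 : V), t))
  exact continuous_const.prodMk continuous_id

theorem gam_smooth : SmoothMap lieReal (lieTw 0) gam := by
  refine ⟨gam_continuous, ?_⟩
  rintro e rfl e' rfl k
  change IsCk (V × ℝ) k ℝ (fun x : ℝ => ((0 : V) + (0 : ℝ) • coc x, x)) _
  have h4 : (fun x : ℝ => (((0 : V) + (0 : ℝ) • coc x, x) : V × ℝ)) =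
      fun x => ((0 : V), x) := by
    funext x
    rw [zero_smul, add_zero]
  rw [h4]
  exact lin_isCk ((0 : ℝ →L[ℝ] V).prod (ContinuousLinearMap.id ℝ ℝ)) k _

theorem gam_not_c1 {a : ℝ} (ha : a ≠ 0) : ¬ C1Map lieReal (lieTw a) gam := by
  rintro ⟨-, h1⟩
  have h2 := h1 _ rfl _ rfl
  change IsCk (V × ℝ) 1 ℝ (fun x : ℝ => ((0 : V) + a • coc x, x)) _ at h2
  have h4 : (fun x : ℝ => (((0 : V) + a • coc x, x) : V × ℝ)) =
      fun x => (a • coc x, x) := by
    funext x
    rw [zero_add]
  rw [h4] at h2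
  obtain ⟨-, df, h3, -⟩ := h2
  have h5 := h3 0 ⟨trivial, trivial⟩ 1
  unfold HasDirDeriv at h5
  apply not_dir ha (df (0, 1))
  refine h5.congr fun t => ?_
  have e1 : (0 : ℝ) + t • (1 : ℝ) = t := by simp
  rw [e1]

theorem metrizable : TopologicalSpace.MetrizableSpace (V × ℝ) := by
  have h1 : SecondCountableTopology (ℕ → ℝ) := inferInstance
  have h2 : SecondCountableTopology V := Topology.IsInducing.subtypeVal.secondCountableTopology
  have h3 : SecondCountableTopology (V × ℝ) := inferInstance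
  exact TopologicalSpace.metrizableSpace_of_t3_secondCountable _

theorem main :
    Nonempty (Grp ≃ₜ V × ℝ) ∧
    (∀ a b : ℝ, a ≠ b → ¬ C1Map (lieTw a) (lieTw b) (id : Grp → Grp)) ∧
    (∀ a b : ℝ, ∃ φ : Grp ≃ₜ* Grp, SmoothMap (lieTw a) (lieTw b) φ ∧
      SmoothMap (lieTw b) (lieTw a) φ.symm) ∧
    (∀ a : ℝ, ∃ ψ : Grp ≃ₜ* Grp, ¬ C1Map (lieTw a) (lieTw a) ψ ∧
      ¬ C1Map (lieTw a) (lieTw a) ψ.symm) ∧
    ∃ γ : Multiplicative ℝ →* Grp, Continuous γ ∧ SmoothMap lieReal (lieTw 0) γ ∧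
      ∀ a : ℝ, a ≠ 0 → ¬ C1Map lieReal (lieTw a) γ := by
  have hsym : ∀ c : ℝ, ((tw c).symm : Grp → Grp) = tw (-c) := fun c => rfl
  refine ⟨⟨chartHomeo⟩, ?_, ?_, ?_, gam, gam_continuous, gam_smooth, fun a ha => gam_not_c1 ha⟩
  · intro a b hab
    have h1 : (id : Grp → Grp) = tw 0 := by
      funext g
      exact (twf_zero g).symm
    rw [h1]
    refine not_c1_tw ?_
    intro h
    apply hab
    linarith
  · intro a b
    refine ⟨tw (a - b), smooth_tw (by ring), ?_⟩
    rw [hsym]
    exact smooth_tw (by ring)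
  · intro a
    refine ⟨tw 1, not_c1_tw (by norm_num), ?_⟩
    rw [hsym]
    exact not_c1_tw (by norm_num)

end Pool.Agent.Y694.SM
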